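import Pool.Agent.helper30.UF.Final

/-!
# MP_62f483_co: bounded oscillation of `U₂(n,r)/n^{α_r}` for every `r`

For every `r ≥ 2` the quotient `U₂(n,r)/n^{α_r}` oscillates asymptotically between `c` and
`4^{r+1} c` for some `c > 0`; explicit constants for `r = 3k+1` and `r = 3k+2`.

The lower bounds come from a random quadratic labelling: every vertex gets two random labels
`α v, β v` in the prime field of order `p`, and one keeps the `r`-sets `A` with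
`(∑_{v∈A} α v)² + ∑_{v∈A} β v = 0` that are in no small bad configuration. The rectangles
`P ∪ Q, P' ∪ Q, P ∪ Q', P' ∪ Q'`, which would be too numerous for a deletion argument, do not
exist for algebraic reasons.
-/

namespace Pool.Agent.Results.MP_62f483_co.BoundedOscillation

open Filter Pool.Agent.helper27.UF Pool.Agent.helper30.UF

theorem result :
    (∀ r : ℕ, 2 ≤ r → ∃ c : ℝ, 0 < c ∧ ∀ ε : ℝ, 0 < ε → ∀ᶠ n : ℕ in atTop,
      (1 - ε) * c ≤ (U2 n r : ℝ) / (n : ℝ) ^ alphaExp r ∧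
      (U2 n r : ℝ) / (n : ℝ) ^ alphaExp r ≤ (1 + ε) * (4 ^ (r + 1) * c)) ∧
    (∀ k : ℕ, 1 ≤ k → ∀ ε : ℝ, 0 < ε → ∀ᶠ n : ℕ in atTop,
      (1 - ε) * ((k.factorial : ℝ) / (4 ^ (3 * k + 2) * ((3 * k + 1).factorial : ℝ))) ≤
        (U2 n (3 * k + 1) : ℝ) / (n : ℝ) ^ alphaExp (3 * k + 1) ∧
      (U2 n (3 * k + 1) : ℝ) / (n : ℝ) ^ alphaExp (3 * k + 1) ≤
        (1 + ε) * ((k.factorial : ℝ) / ((3 * k + 1).factorial : ℝ))) ∧
    (∀ k : ℕ, ∀ ε : ℝ, 0 < ε → ∀ᶠ n : ℕ in atTop,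
      (1 - ε) * (√((2 * k + 1).factorial : ℝ) /
        (4 ^ (3 * k + 3) * ((3 * k + 2).factorial : ℝ))) ≤
        (U2 n (3 * k + 2) : ℝ) / (n : ℝ) ^ alphaExp (3 * k + 2) ∧
      (U2 n (3 * k + 2) : ℝ) / (n : ℝ) ^ alphaExp (3 * k + 2) ≤
        (1 + ε) * (√((2 * k + 1).factorial : ℝ) / ((3 * k + 2).factorial : ℝ))) :=
  ⟨oscillation, two_sided_one, two_sided_two⟩

end Pool.Agent.Results.MP_62f483_co.BoundedOscillation
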