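import Pool.Agent.helper27.UF.Final

/-!
# MP_62f483_co: the limit exists for every `r` divisible by 3

For every `r` divisible by 3 the quotient `U_2(n,r) / n^{⌈4r/3⌉/2}` converges to a positive
limit `L`, and moreover `U_2(n,r) ≤ L n^{⌈4r/3⌉/2}` for every `n` (so `L` is the supremum).
-/

namespace Pool.Agent.Results.MP_62f483_co.LimitDivThree

open Filter Topology Pool.Agent.helper27.UF

theorem result : ∀ r : ℕ, 2 ≤ r → 3 ∣ r →
    ∃ L : ℝ, 0 < L ∧
      Tendsto (fun n : ℕ => (U2 n r : ℝ) / (n : ℝ) ^ alphaExp r) atTop (𝓝 L) ∧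
      ∀ n : ℕ, (U2 n r : ℝ) ≤ L * (n : ℝ) ^ alphaExp r :=
  limit_main

end Pool.Agent.Results.MP_62f483_co.LimitDivThree
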