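import Pool.Agent.helper58.UF.Strict

/-!
# MP_62f483_co: the lower bound `(1-o(1)) C(n,2k)/C(3k,2k)` for `U₂(n,3k)` is not tight for `k ≥ 2`

For every `k ≥ 2`, `U₂(n,3k) ≥ (1-o(1)) · 4/(4·C(3k,2k)-1) · C(n,2k)`.
-/

namespace Pool.Agent.Results.MP_62f483_co.LowerBoundNotTight

open UF58

theorem result : ∀ k : ℕ, 2 ≤ k → ∀ ε : ℝ, 0 < ε → ∃ n₀ : ℕ, ∀ n ≥ n₀,
    (1 - ε) * (4 / (4 * ((3 * k).choose (2 * k) : ℝ) - 1)) * (n.choose (2 * k) : ℝ) ≤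
      (U2 n (3 * k) : ℝ) :=
  fun k hk ε hε => strict k hk ε hε

end Pool.Agent.Results.MP_62f483_co.LowerBoundNotTight
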